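import Mathlib

set_option autoImplicit false

namespace Pool.Agent.H.MP_49ab16_co

def TC : ℕ := 1004181463213659544886895395889754871861640016021362075097811424450835785944429533091997181419737180013012474679764447479930501903748306685833600720957858124402767330189697916008693203277698156121084298312891688711194655162453499054778946780391273259432979761304293553339231428415285888732856809318884020755217894401784119849469992601112523873447255421781626187462117119152704218634446361416881613507254967862761496250237758955021902742737228721352074978526373328613498572095300846836173963759342005721121713280979604548638097349020418966500558798060363495038943026777615599814802363800944143803272096688272583348593337387255734397282857581092171139491468893096959599504583434091657532826951475597364957692015440166283034541017261345663987859170451121374331113207732755673522481854104825943133592660890051641158870777569360401649442981327363214604384913711852549928753523346465483693464792517554398628491546020044951104632704670820299552613828959040580705324630453864500111864082878443694614735314499250836463825002782196988500361973142145701862573311509774491514779479364220391273806347547274746603910770013003801766200590155509579427156749294057711861393334482015053683125435683535019648360154417087823197173159744037666283824279642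

def TP : ℕ := 2908821848790668459173161547521263096342918385159873528776376877106343549165137425504397093430998352070778825017419705802099945454494043642392228630542806909619619212065734609002008155446577775628830642822856428068726373850756620963903552413389763653559010413897252833356546512770150516985049119935381669696193681587231945763698209056238832847122531315198836672466663789346271517887158655864959833776772334518584043776237957310016619187122605589953267411330713182150342330695749138459040296343271755508023731208988807657526391097410198595838900959810151474262785707530902168048762722001325446207513311491190040611261243529439696687435318734791380723013025801491340423110614450369798182070269751260818624871115173088047571265909584187029942230550421899973485365042483780478731538954720133276279240970552500030556392239927701212210423912175152918118225165397022631895783362512027623222688191681996160497623038128727868326286428231070041469456142972669406190890072008143921824885498473651024603307996444877158829863578502843081293621211965671496342472164905088727853039804741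2831773616222873167146034563985412352791258644354790565599730934750933874234799504267387469838424405437161687060622266408943057989424773113641776187287878589998840737603492865113592503322824747017138245129318902260288292985429654605407656413399657428871037246357383628046227166917148356583778594753200268542239676573306077375798061513629974384706510167223966241437698697254015669365033408324539751985736501894905475679425474506228123384470316134065478503222552675084709140602899424806146266117671551082637690209209514447691133563815377358736210471569079086324642498049534972144151817081052640495245828980803185515822372262295169143190208285033334576479793108564299685288193944504727656993376567001230252383379723434259710602471696605803449818383220041821113652131215389858092225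

/-- colour of the edge at vertex `w` in direction `d` -/
def colN (w d : ℕ) : ℕ := Nat.mod (Nat.shiftRight TC (Nat.mul 2 (Nat.add (Nat.mul w 8) d))) 4

/-- the other direction of the same colour at `w` -/
def ptN (w d : ℕ) : ℕ := Nat.mod (Nat.shiftRight TP (Nat.mul 3 (Nat.add (Nat.mul w 8) d))) 8

def mv (w d : ℕ) : ℕ := Nat.xor w (Nat.pow 2 d)

def allLt (n : ℕ) (f : ℕ → Bool) : Bool := Nat.rec true (fun m ih => f m && ih) n

lemma allLt_iff (n : ℕ) (f : ℕ → Bool) : allLt n f = true ↔ ∀ m < n, f m = true := by
  induction n with
  | zero => simp [allLt]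
  | succ n ih =>
    show (f n && allLt n f) = true ↔ _
    rw [Bool.and_eq_true, ih, Nat.forall_lt_succ_right, and_comm]

lemma partner0 : (allLt 256 fun w => allLt 8 fun d => allLt 8 fun e =>
    Nat.beq d e || !Nat.beq (colN w d) (colN (mv w d) e) || Nat.beq e (ptN w d)) = true := by
  decide +kernel

lemma partner : ∀ w < 256, ∀ d < 8, ∀ e < 8, d ≠ e → colN w d = colN (mv w d) e →
    e = ptN w d := by
  intro w hw d hd e he h1 h2
  have := partner0
  simp only [allLt_iff] at this
  have := this w hw d hd e he
  simpa [h1, h2] using this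

lemma rest0 : (allLt 256 fun w => allLt 8 fun d =>
    Nat.beq (ptN (mv w d) (ptN w d)) d && Nat.ble (mv w d) 255 &&
    Nat.beq (colN (Nat.land w (mv w d)) (Nat.log2 (Nat.xor w (mv w d)))) (colN w d)) = true := by
  decide +kernel

lemma rest1 : ∀ w < 256, ∀ d < 8, (ptN (mv w d) (ptN w d) = d ∧ mv w d ≤ 255) ∧
    colN (Nat.land w (mv w d)) (Nat.log2 (Nat.xor w (mv w d))) = colN w d := by
  have := rest0
  simpa only [allLt_iff, Bool.and_eq_true, Nat.beq_eq, Nat.ble_eq] using this

lemma no_three : ∀ w < 256, ∀ d < 8, ptN (mv w d) (ptN w d) = d :=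
  fun w hw d hd => (rest1 w hw d hd).1.1

lemma mv_lt : ∀ w < 256, ∀ d < 8, mv w d < 256 :=
  fun w hw d hd => Nat.lt_succ_of_le (rest1 w hw d hd).1.2

def force (n : ℕ) (k : ℕ → Bool) : Bool := Nat.casesOn n (k 0) fun m => k (Nat.succ m)

lemma force_eq (n : ℕ) (k : ℕ → Bool) : force n k = k n := by cases n <;> rfl

def used (S a : ℕ) : Bool := Nat.beq (Nat.mod (Nat.shiftRight S a) 2) 1

lemma used_eq (S a : ℕ) : used S a = S.testBit a := by
  show Nat.beq ((S >>> a) % 2) 1 = _
  rw [Nat.testBit_eq_decide_div_mod_eq, Nat.shiftRight_eq_div_pow, Bool.eq_iff_iff]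
  simp

def ok (n : ℕ) : ℕ → ℕ → Bool :=
  Nat.rec (fun _ _ => false) (fun _ ih w S => allLt 8 fun a =>
      used S a || force (ptN w a) fun b => used S b || force (mv (mv w a) b) fun w' =>
        force (Nat.lor (Nat.lor S (Nat.pow 2 a)) (Nat.pow 2 b)) fun S' => ih w' S') n

lemma ok_succ (n w S : ℕ) (h : ok (n + 1) w S = true) (a : ℕ) (ha : a < 8)
    (h1 : S.testBit a = false) (h2 : S.testBit (ptN w a) = false) :
    ok n (mv (mv w a) (ptN w a)) (S ||| 2 ^ a ||| 2 ^ ptN w a) = true := by
  have h' : (allLt 8 fun a =>
      used S a || force (ptN w a) fun b => used S b || force (mv (mv w a) b) fun w' =>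
        force (Nat.lor (Nat.lor S (Nat.pow 2 a)) (Nat.pow 2 b)) fun S' => ok n w' S') = true := h
  have := (allLt_iff _ _).1 h' a ha
  simp only [force_eq, used_eq, h1, h2, Bool.false_or] at this
  exact this

lemma chk0 : (allLt 256 fun w => ok 4 w 0) = true := by decide +kernel

lemma chk_all : ∀ w < 256, ok 4 w 0 = true := (allLt_iff _ _).1 chk0

abbrev V := Fin 8 → Bool

def enc (x : V) : ℕ :=
  (if x 0 then 1 else 0) + (if x 1 then 2 else 0) + (if x 2 then 4 else 0) + (if x 3 then 8 else 0)
  + (if x 4 then 16 else 0) + (if x 5 then 32 else 0) + (if x 6 then 64 else 0)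
  + (if x 7 then 128 else 0)

def dec (w : ℕ) : V := fun k => w.testBit k.1

lemma enc_dec : ∀ w < 256, enc (dec w) = w := by decide +kernel

lemma dec_surj (x : V) : ∃ w < 256, x = dec w := by
  have hinj : Function.Injective fun w : Fin 256 => dec w.1 := by
    intro a b h
    apply Fin.ext
    rw [← enc_dec _ a.2, ← enc_dec _ b.2]
    exact congrArg enc h
  have := (Fintype.bijective_iff_injective_and_card _).2 ⟨hinj, by simp⟩
  obtain ⟨w, hw⟩ := this.2 x
  exact ⟨w.1, w.2, hw.symm⟩

def flp (x : V) (d : Fin 8) : V := fun k => if k = d then !x k else x k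

lemma flp_dec (w : ℕ) (d : Fin 8) : flp (dec w) d = dec (mv w d.1) := by
  funext k
  show _ = (w ^^^ 2 ^ d.1).testBit k.1
  rw [Nat.testBit_xor, Nat.testBit_two_pow]
  by_cases h : k = d
  · simp [flp, dec, h]
  · have : d.1 ≠ k.1 := fun h' => h (Fin.ext h'.symm)
    simp [flp, dec, h, this]

def cf (x y : V) : Fin 4 :=
  ⟨colN (enc x &&& enc y) (Nat.log2 (enc x ^^^ enc y)), Nat.mod_lt _ (by norm_num)⟩

lemma cf_symm (x y : V) : cf x y = cf y x := by
  unfold cf
  simp only [Nat.and_comm (enc x), Nat.xor_comm (enc x)]

def col : Sym2 V → Fin 4 := Sym2.lift ⟨cf, cf_symm⟩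

lemma bridge0 : ∀ w < 256, ∀ d < 8,
    colN (w &&& mv w d) (Nat.log2 (w ^^^ mv w d)) = colN w d :=
  fun w hw d hd => (rest1 w hw d hd).2

lemma bridge (x : V) (d : Fin 8) : enc (flp x d) = mv (enc x) d.1 ∧
    (col s(x, flp x d)).1 = colN (enc x) d.1 ∧ enc x < 256 := by
  obtain ⟨w, hw, rfl⟩ := dec_surj x
  have h1 : enc (flp (dec w) d) = mv w d.1 := by rw [flp_dec, enc_dec _ (mv_lt w hw _ d.2)]
  refine ⟨by rw [h1, enc_dec w hw], ?_, by rwa [enc_dec w hw]⟩
  show colN (enc (dec w) &&& enc (flp (dec w) d)) (Nat.log2 (enc (dec w) ^^^ enc (flp (dec w) d))) = _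
  rw [h1, enc_dec w hw]
  exact bridge0 w hw _ d.2

lemma step (x y : V) (h : hammingDist x y = 1) : ∃ d, y = flp x d := by
  unfold hammingDist at h
  obtain ⟨d, hd⟩ := Finset.card_eq_one.1 h
  refine ⟨d, funext fun k => ?_⟩
  have : x k ≠ y k ↔ k = d := by
    have := Finset.ext_iff.1 hd k
    simpa using this
  unfold flp
  by_cases hk : k = d
  · have h2 := this.2 hk
    rw [if_pos hk]
    revert h2
    cases x k <;> cases y k <;> simp
  · rw [if_neg hk]
    by_contra h2
    exact hk (this.1 (Ne.symm h2))

lemma count (q : ℕ → Prop) [DecidablePred q] (h3 : ∀ i : Fin 6, ¬ q i.1 → ¬ q (i.1 + 1) → False)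
    (h4 : ¬ q 0 → ¬ q 2 → ¬ q 4 → ¬ q 6 → False) : 4 ≤ ((Finset.range 7).filter q).card := by
  have t0 : ¬ q 0 → ¬ q 1 → False := h3 0
  have t1 : ¬ q 1 → ¬ q 2 → False := h3 1
  have t2 : ¬ q 2 → ¬ q 3 → False := h3 2
  have t3 : ¬ q 3 → ¬ q 4 → False := h3 3
  have t4 : ¬ q 4 → ¬ q 5 → False := h3 4
  have t5 : ¬ q 5 → ¬ q 6 → False := h3 5
  clear h3
  rw [Finset.card_filter]
  simp only [Finset.sum_range_succ, Finset.sum_range_zero]
  by_cases a0 : q 0 <;> by_cases a1 : q 1 <;> by_cases a2 : q 2 <;> by_cases a3 : q 3 <;>
    by_cases a4 : q 4 <;> by_cases a5 : q 5 <;> by_cases a6 : q 6 <;>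
    simp only [a0, a1, a2, a3, a4, a5, a6, if_true, if_false, not_true_eq_false,
      not_false_eq_true, forall_const, IsEmpty.forall_iff] at t0 t1 t2 t3 t4 t5 h4 ⊢ <;> omega

theorem main (p : ℕ → V) (hp : ∀ i < 8, hammingDist (p i) (p (i + 1)) = 1)
    (ha : ∀ k, p 8 k = !p 0 k) :
    4 ≤ ((Finset.range 7).filter fun i =>
      col s(p i, p (i + 1)) ≠ col s(p (i + 1), p (i + 2))).card := by
  choose d hd using fun i : Fin 8 => step _ _ (hp i.1 i.2)
  have hsurj : Function.Surjective d := by
    intro k
    by_contra hc
    push Not at hc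
    have : ∀ i ≤ 8, p i k = p 0 k := by
      intro i hi
      induction i with
      | zero => rfl
      | succ i ih =>
        have := congrFun (hd ⟨i, by omega⟩) k
        simp only [flp, if_neg (hc ⟨i, by omega⟩).symm] at this
        rw [this, ih (by omega)]
    have h2 := ha k
    rw [this 8 le_rfl] at h2
    revert h2
    cases p 0 k <;> simp
  have hinj : Function.Injective d := Finite.injective_iff_surjective.2 hsurj
  have hne : ∀ i j : Fin 8, i ≠ j → (d i).1 ≠ (d j).1 := fun i j h h' => h (hinj (Fin.ext h'))
  have hb : ∀ i : Fin 8, enc (p (i.1 + 1)) = mv (enc (p i.1)) (d i).1 ∧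
      (col s(p i.1, p (i.1 + 1))).1 = colN (enc (p i.1)) (d i).1 ∧ enc (p i.1) < 256 := by
    intro i; rw [hd i]; exact bridge _ _
  have hpt : ∀ i : Fin 7, col s(p i.1, p (i.1 + 1)) = col s(p (i.1 + 1), p (i.1 + 2)) →
      (d i.succ).1 = ptN (enc (p i.1)) (d i.castSucc).1 := by
    intro i h
    have h1 := hb i.castSucc
    have h2 := hb i.succ
    simp only [Fin.val_castSucc, Fin.val_succ] at h1 h2
    refine partner _ h1.2.2 _ (d _).2 _ (d _).2
      (hne _ _ (Fin.castSucc_lt_succ).ne) ?_
    rw [← h1.1, ← h1.2.1, ← h2.2.1, h]
  have h3 : ∀ i : Fin 6, col s(p i.1, p (i.1 + 1)) = col s(p (i.1 + 1), p (i.1 + 2)) →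
      col s(p (i.1 + 1), p (i.1 + 2)) = col s(p (i.1 + 2), p (i.1 + 3)) → False := by
    intro i h h'
    have a := hpt i.castSucc h
    have b := hpt i.succ h'
    have h1 := hb i.castSucc.castSucc
    simp only [Fin.val_castSucc, Fin.val_succ] at a b h1
    have e : i.succ.castSucc = i.castSucc.succ := Fin.ext rfl
    rw [e, a, h1.1, no_three _ h1.2.2 _ (d _).2] at b
    exact hne _ _ (by intro h; have := congrArg Fin.val h; simp at this; omega) b
  have h4 : col s(p 0, p 1) = col s(p 1, p 2) → col s(p 2, p 3) = col s(p 3, p 4) →
      col s(p 4, p 5) = col s(p 5, p 6) → col s(p 6, p 7) = col s(p 7, p 8) → False := by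
    intro a b c e
    have a' : (d 1).1 = ptN (enc (p 0)) (d 0).1 := hpt 0 a
    have b' : (d 3).1 = ptN (enc (p 2)) (d 2).1 := hpt 2 b
    have c' : (d 5).1 = ptN (enc (p 4)) (d 4).1 := hpt 4 c
    have e' : (d 7).1 = ptN (enc (p 6)) (d 6).1 := hpt 6 e
    have m0 : enc (p 1) = mv (enc (p 0)) (d 0).1 := (hb 0).1
    have m1 : enc (p 2) = mv (enc (p 1)) (d 1).1 := (hb 1).1
    have m2 : enc (p 3) = mv (enc (p 2)) (d 2).1 := (hb 2).1
    have m3 : enc (p 4) = mv (enc (p 3)) (d 3).1 := (hb 3).1
    have m4 : enc (p 5) = mv (enc (p 4)) (d 4).1 := (hb 4).1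
    have m5 : enc (p 6) = mv (enc (p 5)) (d 5).1 := (hb 5).1
    have H := chk_all _ (hb 0).2.2
    have H1 := ok_succ _ _ _ H _ (d 0).2 (by simp) (by simp)
    simp only [Fin.val_zero] at H1
    rw [← a', ← m0, ← m1] at H1
    have H2 := ok_succ _ _ _ H1 _ (d 2).2 (by simp [hne, Nat.testBit_or]) (by rw [← b']; simp [hne, Nat.testBit_or])
    rw [← b', ← m2, ← m3] at H2
    have H3 := ok_succ _ _ _ H2 _ (d 4).2 (by simp [hne, Nat.testBit_or]) (by rw [← c']; simp [hne, Nat.testBit_or])
    rw [← c', ← m4, ← m5] at H3
    have H4 := ok_succ _ _ _ H3 _ (d 6).2 (by simp [hne, Nat.testBit_or]) (by rw [← e']; simp [hne, Nat.testBit_or])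
    exact absurd H4 (by simp [ok])
  exact count _ (fun i h h' => h3 i (not_not.1 h) (not_not.1 h'))
    (fun a b c e => h4 (not_not.1 a) (not_not.1 b) (not_not.1 c) (not_not.1 e))

end Pool.Agent.H.MP_49ab16_co
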